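import Pool.Agent.W37.SG.Stm2

/-! SG-ABQ (MP_9a3597_al): abelian quotients of `Q`. -/

set_option autoImplicit false

namespace Pool.Agent.W465.SG.Abq
open Pool.Agent.W37.SG

theorem main : S_ABQ := by
  intro D1 D2 D3 D4 D5 DC TR CLS p hp s Q Qk hT k r T hTadd hTker hTu
  obtain ⟨c, j0, hcls⟩ := CLS D1 D2 D3 D4 D5 DC TR p s Q Qk hT
  obtain ⟨S, hS1, hS2, hS3, hS4, _, _⟩ := TR p k
  have hpp : p.Prime := hp.out
  -- the truncation homomorphism
  let φ : Q →* Pm p := MonoidHom.mk' (fun g : Q => S g)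
    (fun a b => hS2 a b (hT.tri a a.2) (hT.tri b b.2))
  have hφ : ∀ g : Q, φ g = S g := fun _ => rfl
  have hrange : (⊤ : Subgroup Q).map φ = Qk k := by
    ext h
    rw [hT.trunc]
    constructor
    · rintro ⟨g, _, rfl⟩
      exact ⟨g, g.2, (hS1 g (hT.tri g g.2)).1⟩
    · rintro ⟨g, hg, hh⟩
      exact ⟨⟨g, hg⟩, trivial, (hS3 g h (hT.tri g hg) hh).symm⟩
  let τ : Q →* Multiplicative (ZMod (p ^ r)) := MonoidHom.mk' (fun g : Q => Multiplicative.ofAdd (T g))
    (fun a b => by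
      change Multiplicative.ofAdd (T (a * b)) = _
      rw [hTadd a a.2 b b.2, ofAdd_add])
  have hτ : ∀ g : Q, τ g = Multiplicative.ofAdd (T g) := fun _ => rfl
  have hker : ∀ g : Q, φ g = 1 → τ g = 1 := by
    intro g hg
    rw [hφ, hS4 g (hT.tri g g.2)] at hg
    rw [hτ, hTker g g.2 hg, ofAdd_zero]
  have hsurj : Function.Surjective τ := by
    obtain ⟨g, hg, u, hu⟩ := hTu
    intro z
    have : NeZero (p ^ r) := ⟨(pow_pos hpp.pos r).ne'⟩
    refine ⟨(⟨g, hg⟩ : Q) ^ (Multiplicative.toAdd z * (↑u⁻¹ : ZMod (p ^ r))).val, ?_⟩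
    rw [map_pow, hτ]
    apply Multiplicative.toAdd.injective
    rw [toAdd_pow, toAdd_ofAdd, nsmul_eq_mul, ZMod.natCast_val, ZMod.cast_id', id]
    change _ * T g = _
    rw [← hu, mul_assoc, Units.inv_mul, mul_one]
  have hcard : τ.ker.index = p ^ r := by
    rw [Subgroup.index_ker, MonoidHom.range_eq_top.2 hsurj, Subgroup.card_top]
    rw [Nat.card_congr Multiplicative.toAdd, Nat.card_zmod]
  have hle : ((Qk k).lowerCentralSeries 1).comap φ ≤ τ.ker := by
    intro g hg
    have h1 : φ g ∈ (Qk k).lowerCentralSeries 1 := hg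
    rw [← hrange, ← Subgroup.map_lowerCentralSeries] at h1
    obtain ⟨w, hw, hwg⟩ := h1
    have h2 : τ w = 1 := by
      have h3 : (⊤ : Subgroup Q).lowerCentralSeries 1 ≤ τ.ker := by
        rw [Subgroup.top_lowerCentralSeries_one]
        exact Abelianization.commutator_subset_ker τ
      exact h3 hw
    have h3 : τ (g * w⁻¹) = 1 := by
      apply hker
      rw [map_mul, map_inv, hwg, mul_inv_cancel]
    rw [map_mul, map_inv, h2, inv_one, mul_one] at h3
    exact h3
  have hidx := hcls.idx k 1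
  have h1 : (((Qk k).lowerCentralSeries 1).comap φ).index =
      ((Qk k).lowerCentralSeries 1).relIndex (Qk k) := by
    rw [Subgroup.index_comap, MonoidHom.range_eq_map, hrange]
  have h2 : p ^ r ∣ ((Qk k).lowerCentralSeries 1).relIndex (Qk k) := by
    rw [← h1, ← hcard]
    exact Subgroup.index_dvd_of_le hle
  have h3 := Nat.le_of_dvd (Nat.pos_of_ne_zero hidx.1) h2
  have h4 := (Nat.pow_le_pow_iff_right hpp.one_lt).1 (h3.trans hidx.2)
  omega

end Pool.Agent.W465.SG.Abq
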