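import Pool.Agent.W465.SG.Grp

/-! SG-GAM (MP_9a3597_al), part 2: the filtration. -/

set_option autoImplicit false

namespace Pool.Agent.W465.SG
open Pool.Agent.W37.SG
open scoped commutatorElement

structure TRk (p k : ℕ) (T : Pm p → Pm p) : Prop where
  tr1 : ∀ g, IsTri p g → IsTrunc p k g (T g) ∧ IsTri p (T g) ∧ IsLvl p k (T g)
  tr2 : ∀ g h, IsTri p g → IsTri p h → T (g * h) = T g * T h
  tr3 : ∀ g h, IsTri p g → IsTrunc p k g h → h = T g
  tr4 : ∀ g, IsTri p g → (T g = 1 ↔ IsKer p k g)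
  tr5 : ∀ g, IsTri p g → ∀ f ∈ U p (p ^ k), ∀ x, f (T g x) = f (g x)

lemma TT {p j k : ℕ} {Tj Tk : Pm p → Pm p} (hj : TRk p j Tj) (hk : TRk p k Tk) (hjk : j ≤ k)
    {g : Pm p} (hg : IsTri p g) : Tj (Tk g) = Tj g := by
  apply hj.tr3 g _ hg
  intro x i
  have h1 := (hj.tr1 _ (hk.tr1 g hg).2.1).1 x i
  rw [h1]
  split_ifs with h
  · rw [(hk.tr1 g hg).1 x i, if_pos (by omega)]
  · rfl

structure Ctx (p s : ℕ) [Fact p.Prime] (Q : Subgroup (Pm p)) (Qk : ℕ → Subgroup (Pm p))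
    (T : ℕ → Pm p → Pm p) (c : ℕ → ℕ) (j0 : ℕ) (a : ℕ → ℕ) : Prop where
  D1 : S_D1
  D2 : S_D2
  D3 : S_D3
  D4 : S_D4
  D5 : S_D5
  DC : S_DC
  tree : TreeHyp p s Q Qk
  tr : ∀ k, TRk p k (T k)
  cls : ClsHyp p s Qk c j0
  lab : ∀ j, ∀ f : Fn p, f ∈ U p (a j) ↔ ∃ g ∈ Q, IsKer p j g ∧ ∀ x, g x j = x j + f x
  ale : ∀ j, a j ≤ p ^ j

section ctx
variable {p s : ℕ} [Fact p.Prime] {Q : Subgroup (Pm p)} {Qk : ℕ → Subgroup (Pm p)}
  {T : ℕ → Pm p → Pm p} {c : ℕ → ℕ} {j0 : ℕ} {a : ℕ → ℕ}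

def phi (H : Ctx p s Q Qk T c j0 a) (k : ℕ) : Q →* Pm p :=
  MonoidHom.mk' (fun g : Q => T k g)
    (fun a b => (H.tr k).tr2 a b (H.tree.tri a a.2) (H.tree.tri b b.2))

lemma mem_Qk (H : Ctx p s Q Qk T c j0 a) (k : ℕ) (h : Pm p) : h ∈ Qk k ↔ ∃ g ∈ Q, T k g = h := by
  rw [H.tree.trunc]
  constructor
  · rintro ⟨g, hg, hh⟩
    exact ⟨g, hg, ((H.tr k).tr3 g h (H.tree.tri g hg) hh).symm⟩
  · rintro ⟨g, hg, rfl⟩
    exact ⟨g, hg, ((H.tr k).tr1 g (H.tree.tri g hg)).1⟩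

lemma Qk_eq (H : Ctx p s Q Qk T c j0 a) (k : ℕ) : (⊤ : Subgroup Q).map (phi H k) = Qk k := by
  ext h
  rw [mem_Qk H]
  constructor
  · rintro ⟨g, _, rfl⟩
    exact ⟨g, g.2, rfl⟩
  · rintro ⟨g, hg, rfl⟩
    exact ⟨⟨g, hg⟩, trivial, rfl⟩

lemma lcs_eq (H : Ctx p s Q Qk T c j0 a) (k i : ℕ) :
    ((⊤ : Subgroup Q).lowerCentralSeries i).map (phi H k) = (Qk k).lowerCentralSeries i := by
  rw [Subgroup.map_lowerCentralSeries, Qk_eq H]

lemma lcs_down (H : Ctx p s Q Qk T c j0 a) {j k i : ℕ} (hjk : j ≤ k) {h : Pm p}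
    (hh : h ∈ (Qk k).lowerCentralSeries i) : T j h ∈ (Qk j).lowerCentralSeries i := by
  rw [← lcs_eq H] at hh ⊢
  obtain ⟨r, hr, rfl⟩ := hh
  exact ⟨r, hr, (TT (H.tr j) (H.tr k) hjk (H.tree.tri r r.2)).symm⟩

lemma gam_iff (H : Ctx p s Q Qk T c j0 a) {i j' : ℕ} (hj : j0 ≤ j') (hi : i ≤ c j') {g : Pm p}
    (hg : g ∈ Q) : (∀ k, T k g ∈ (Qk k).lowerCentralSeries i) ↔
      T j' g ∈ (Qk j').lowerCentralSeries i := by
  constructor
  · intro h
    exact h j'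
  · intro h k
    rcases le_total k j' with hk | hk
    · have h1 := lcs_down H hk h
      rwa [TT (H.tr k) (H.tr j') hk (H.tree.tri g hg)] at h1
    · have h0 := h
      rw [← lcs_eq H] at h0
      obtain ⟨r, hr, hr'⟩ := h0
      have hr'' : T j' r = T j' g := hr'
      have h1 : T k r ∈ (Qk k).lowerCentralSeries i := by
        rw [← lcs_eq H]
        exact ⟨r, hr, rfl⟩
      have h2 : g * (r : Pm p)⁻¹ ∈ Q := Q.mul_mem hg (Q.inv_mem r.2)
      have hrt := H.tree.tri r r.2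
      have hrt' := H.tree.tri _ (Q.inv_mem r.2)
      have h3 : T j' (g * (r : Pm p)⁻¹) = 1 := by
        have h4 : T j' (g * (r : Pm p)⁻¹) * T j' r = T j' g := by
          rw [← (H.tr j').tr2 _ _ (H.tree.tri _ h2) hrt, inv_mul_cancel_right]
        rw [hr''] at h4
        exact mul_eq_right.1 h4
      have h5 : T k (g * (r : Pm p)⁻¹) ∈ (Qk k).lowerCentralSeries i := by
        apply (Qk k).lowerCentralSeries_antitone hi
        rw [H.cls.ker j' k hj hk]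
        refine ⟨(mem_Qk H k _).2 ⟨_, h2, rfl⟩, ?_⟩
        rw [← (H.tr j').tr4 _ ((H.tr k).tr1 _ (H.tree.tri _ h2)).2.1,
          TT (H.tr j') (H.tr k) hk (H.tree.tri _ h2)]
        exact h3
      have h6 : T k g = T k (g * (r : Pm p)⁻¹) * T k r := by
        rw [← (H.tr k).tr2 _ _ (H.tree.tri _ h2) hrt, inv_mul_cancel_right]
      rw [h6]
      exact mul_mem h5 h1

lemma exists_j' (H : Ctx p s Q Qk T c j0 a) (N : ℕ) : ∃ j', j0 ≤ j' ∧ N ≤ c j' := by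
  obtain ⟨k, hk⟩ := H.cls.unbdd N
  exact ⟨max k j0, le_max_right _ _, hk.trans (H.cls.mono (le_max_left _ _))⟩

/-- the filtration -/
def Gm (H : Ctx p s Q Qk T c j0 a) (m : ℕ) : Subgroup (Pm p) :=
  (⨅ k, ((Qk k).lowerCentralSeries (m - 1)).comap (phi H k)).map Q.subtype

lemma mem_Gm (H : Ctx p s Q Qk T c j0 a) (m : ℕ) (g : Pm p) :
    g ∈ Gm H m ↔ g ∈ Q ∧ ∀ k, T k g ∈ (Qk k).lowerCentralSeries (m - 1) := by
  constructor
  · rintro ⟨r, hr, rfl⟩
    refine ⟨r.2, fun k => ?_⟩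
    have h1 := (Subgroup.mem_iInf.1 hr) k
    exact h1
  · rintro ⟨hg, h⟩
    refine ⟨⟨g, hg⟩, ?_, rfl⟩
    refine Subgroup.mem_iInf.2 fun k => ?_
    exact h k

lemma mem_Gm' (H : Ctx p s Q Qk T c j0 a) {m i j' : ℕ} (hm : m = i + 1) (hj : j0 ≤ j')
    (hi : i ≤ c j') (g : Pm p) :
    g ∈ Gm H m ↔ g ∈ Q ∧ T j' g ∈ (Qk j').lowerCentralSeries i := by
  rw [mem_Gm, hm, Nat.add_sub_cancel]
  constructor
  · rintro ⟨hg, h⟩
    exact ⟨hg, h j'⟩
  · rintro ⟨hg, h⟩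
    exact ⟨hg, (gam_iff H hj hi hg).2 h⟩

lemma T_cm (H : Ctx p s Q Qk T c j0 a) (k : ℕ) {g h : Pm p} (hg : g ∈ Q) (hh : h ∈ Q) :
    T k (cm g h) = ⁅(T k g)⁻¹, (T k h)⁻¹⁆ := by
  have h1 : phi H k (cm (⟨g, hg⟩ : Q) ⟨h, hh⟩) = ⁅(phi H k ⟨g, hg⟩)⁻¹, (phi H k ⟨h, hh⟩)⁻¹⁆ := by
    simp only [cm, commutatorElement_def, inv_inv, map_mul, map_inv]
  exact h1

omit [Fact p.Prime] in
lemma cm_mem {g h : Pm p} (hg : g ∈ Q) (hh : h ∈ Q) : cm g h ∈ Q :=
  Q.mul_mem (Q.mul_mem (Q.mul_mem (Q.inv_mem hg) (Q.inv_mem hh)) hg) hh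

lemma Gm_comm (H : Ctx p s Q Qk T c j0 a) (m m' : ℕ) (hm : 1 ≤ m) (hm' : 1 ≤ m') :
    ∀ g ∈ Gm H m, ∀ h ∈ Gm H m', cm g h ∈ Gm H (m + m') := by
  intro g hg h hh
  rw [mem_Gm] at hg hh ⊢
  refine ⟨cm_mem hg.1 hh.1, fun k => ?_⟩
  rw [T_cm H k hg.1 hh.1]
  have h1 := comm_lcs (Qk k) (m' - 1) (m - 1)
    (Subgroup.commutator_mem_commutator (inv_mem (hg.2 k)) (inv_mem (hh.2 k)))
  have h2 : m - 1 + (m' - 1) + 1 = m + m' - 1 := by omega
  rwa [h2] at h1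

lemma Gm_dep (H : Ctx p s Q Qk T c j0 a) (m : ℕ) (hm : 1 ≤ m) : ∀ g ∈ Gm H m, Dep p m g := by
  intro g hg
  rw [mem_Gm] at hg
  intro n f hf
  have hp : 1 < p := (Fact.out : p.Prime).one_lt
  have hn : n ≤ p ^ n := (Nat.lt_pow_self hp).le
  have h1 : ∀ x ∈ Qk n, Dep p 1 x := by
    intro x hx
    obtain ⟨r, hr, rfl⟩ := (mem_Qk H n x).1 hx
    exact (H.D2 p _ ((H.tr n).tr1 r (H.tree.tri r hr)).2.1).1
  have h2 := lcs_dep H.DC p (Qk n) h1 (m - 1) _ (hg.2 n)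
  rw [Nat.sub_add_cancel hm] at h2
  have h3 := h2 n f hf
  have h4 : (fun x => f (T n g x) - f x) = (fun x => f (g x) - f x) := by
    funext x
    rw [(H.tr n).tr5 g (H.tree.tri g hg.1) f (U_mono hn hf) x]
  rwa [h4] at h3

lemma Gm_index (H : Ctx p s Q Qk T c j0 a) (m : ℕ) (hm : 1 ≤ m) :
    (Gm H m).relIndex Q ≠ 0 ∧ (Gm H m).relIndex Q ≤ p ^ (m - 1 + s) := by
  obtain ⟨j', hj, hi⟩ := exists_j' H (m - 1)
  have h1 : (Gm H m).subgroupOf Q = ((Qk j').lowerCentralSeries (m - 1)).comap (phi H j') := by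
    ext g
    rw [Subgroup.mem_subgroupOf, mem_Gm' H (by omega : m = m - 1 + 1) hj hi]
    constructor
    · rintro ⟨_, h⟩
      exact h
    · intro h
      exact ⟨g.2, h⟩
  have h2 : (Gm H m).relIndex Q = ((Qk j').lowerCentralSeries (m - 1)).relIndex (Qk j') := by
    rw [Subgroup.relIndex, h1, Subgroup.index_comap, MonoidHom.range_eq_map, Qk_eq H]
  rw [h2]
  exact H.cls.idx j' (m - 1)

/-- the labels at level `j` of the elements of `M` -/
def WA {j : ℕ} (M : Subgroup (Pm p)) (hM : ∀ h ∈ M, IsTri p h ∧ IsKer p j h ∧ IsLvl p (j + 1) h) :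
    AddSubgroup (Fn p) where
  carrier := {f | ∃ h ∈ M, ∀ x, h x j = x j + f x}
  add_mem' := by
    rintro f1 f2 ⟨h1, hh1, e1⟩ ⟨h2, hh2, e2⟩
    refine ⟨h1 * h2, M.mul_mem hh1 hh2, fun x => ?_⟩
    have h3 : f1 (h2 x) = f1 x := by
      have h4 := (hM h1 hh1).1 j (h2 x) x (fun i hi => (hM h2 hh2).2.1 x i hi)
      rw [e1, e1] at h4
      simpa using h4
    rw [Equiv.Perm.mul_apply, e1, e2, h3, Pi.add_apply]
    ring
  zero_mem' := ⟨1, M.one_mem, fun x => by simp⟩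
  neg_mem' := by
    rintro f ⟨h, hh, e⟩
    refine ⟨h⁻¹, M.inv_mem hh, fun x => ?_⟩
    have h1 : h (h⁻¹ x) = x := by simp
    have h2 := e (h⁻¹ x)
    rw [h1] at h2
    have h3 : f (h⁻¹ x) = f x := by
      have h4 := (hM h hh).1 j (h⁻¹ x) x
        (fun i hi => (hM h⁻¹ (M.inv_mem hh)).2.1 x i hi)
      rw [e, e] at h4
      simpa using h4
    rw [h3] at h2
    rw [Pi.neg_apply, h2]
    ring

lemma card_WA {j : ℕ} (M : Subgroup (Pm p))
    (hM : ∀ h ∈ M, IsTri p h ∧ IsKer p j h ∧ IsLvl p (j + 1) h) :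
    Nat.card (WA M hM) = Nat.card M := by
  symm
  refine Nat.card_congr (Equiv.ofBijective (fun h : M =>
    (⟨fun x => h.1 x j - x j, h.1, h.2, fun x => by ring⟩ : WA M hM)) ⟨?_, ?_⟩)
  · intro h1 h2 h12
    have h3 : (fun x => h1.1 x j - x j) = (fun x => h2.1 x j - x j) :=
      congrArg Subtype.val h12
    apply Subtype.ext
    apply Equiv.ext
    intro x
    funext i
    rcases lt_trichotomy i j with hi | hi | hi
    · rw [(hM _ h1.2).2.1 x i hi, (hM _ h2.2).2.1 x i hi]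
    · subst hi
      exact sub_left_inj.1 (congrFun h3 x)
    · rw [(hM _ h1.2).2.2 x i hi, (hM _ h2.2).2.2 x i hi]
  · rintro ⟨f, h, hh, e⟩
    refine ⟨⟨h, hh⟩, Subtype.ext (funext fun x => ?_)⟩
    change h x j - x j = f x
    rw [e]
    ring

lemma label_mem (H : Ctx p s Q Qk T c j0 a) {j : ℕ} {g : Pm p} (hg : IsTri p g) :
    (fun x => g x j - x j) ∈ U p (p ^ j) := by
  rw [H.D3 p j]
  intro x y hxy
  exact hg j x y hxy

lemma lab_eq {j : ℕ} {g : Pm p} {f : Fn p} (e : ∀ x, g x j = x j + f x) :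
    f = (fun x => g x j - x j) := by
  funext x
  rw [e]
  ring

lemma M_prop (H : Ctx p s Q Qk T c j0 a) {j : ℕ} (hj : j0 ≤ j) (r : ℕ) :
    ∀ h ∈ (Qk (j + 1)).lowerCentralSeries (c j + r),
      IsTri p h ∧ IsKer p j h ∧ IsLvl p (j + 1) h := by
  intro h hh
  have h1 := (Qk (j + 1)).lowerCentralSeries_antitone (Nat.le_add_right (c j) r) hh
  rw [H.cls.ker j (j + 1) hj (Nat.le_succ j)] at h1
  obtain ⟨r, hr, rfl⟩ := (mem_Qk H (j + 1) h).1 h1.1
  have h2 := (H.tr (j + 1)).tr1 r (H.tree.tri r hr)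
  exact ⟨h2.2.1, h1.2, h2.2.2⟩

lemma W_eq (H : Ctx p s Q Qk T c j0 a) {j r : ℕ} (hj : j0 ≤ j) (hr : c j + r ≤ c (j + 1))
    (f : Fn p) : f ∈ U p (c (j + 1) - c j - r) ↔
      ∃ h ∈ (Qk (j + 1)).lowerCentralSeries (c j + r), ∀ x, h x j = x j + f x := by
  set M := (Qk (j + 1)).lowerCentralSeries (c j + r) with hMdef
  have hM := M_prop H hj r
  rw [← hMdef] at hM
  set W : Submodule (ZMod p) (Fn p) := AddSubgroup.toZModSubmodule p (WA M hM) with hW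
  have hmem : ∀ f, f ∈ W ↔ ∃ h ∈ M, ∀ x, h x j = x j + f x := fun f => Iff.rfl
  have hle : W ≤ U p (p ^ j) := by
    intro f hf
    obtain ⟨h, hh, e⟩ := (hmem f).1 hf
    rw [lab_eq e]
    exact label_mem H (hM h hh).1
  have hst : ∀ g ∈ Q, ∀ f ∈ W, (fun x => f (g x)) ∈ W := by
    intro g hg f hf
    have hfU := hle hf
    obtain ⟨h, hh, e⟩ := (hmem f).1 hf
    rw [hmem]
    have hu : T (j + 1) g ∈ Qk (j + 1) := (mem_Qk H (j + 1) _).2 ⟨g, hg, rfl⟩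
    have hut : IsTri p (T (j + 1) g) := ((H.tr (j + 1)).tr1 g (H.tree.tri g hg)).2.1
    refine ⟨(T (j + 1) g)⁻¹ * h * (T (j + 1) g), ?_, fun x => ?_⟩
    · have h1 := conj_lcs (Qk (j + 1)) (c j + r) _ (inv_mem hu) h hh
      rwa [inv_inv] at h1
    · have hui : IsTri p (T (j + 1) g)⁻¹ := (H.D4 p _ _ hut hut).2.1
      have h1 := hui j (h (T (j + 1) g x)) (T (j + 1) g x) (fun i hi => (hM h hh).2.1 _ i hi)
      have h2 : (T (j + 1) g)⁻¹ (T (j + 1) g x) = x := by simp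
      have h3 : f (T (j + 1) g x) = f (g x) :=
        (H.tr (j + 1)).tr5 g (H.tree.tri g hg) f
          (U_mono (Nat.pow_le_pow_right (Fact.out : p.Prime).pos (Nat.le_succ j)) hfU) x
      rw [h2, e, h3] at h1
      change (T (j + 1) g)⁻¹ (h (T (j + 1) g x)) j = x j + f (g x)
      linear_combination h1
  obtain ⟨n, _, hn⟩ := H.D5 H.D1 H.D2 p j Q H.tree.tri (fun v _ => H.tree.tau_ne v) W hle hst
  have hcard : p ^ n = p ^ (c (j + 1) - c j - r) := by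
    have h1 : Nat.card W = Nat.card M := card_WA M hM
    rw [hn, card_U H.D1 p n, hMdef, H.cls.card (j + 1) (c j + r) (by omega)
      (le_trans (H.cls.mono hj) (Nat.le_add_right _ _)) hr] at h1
    rw [h1]
    congr 1
    omega
  have hn' : n = c (j + 1) - c j - r := Nat.pow_right_injective (Fact.out : p.Prime).two_le hcard
  rw [← hn', ← hn]
  exact hmem f

lemma T_ker (H : Ctx p s Q Qk T c j0 a) {j : ℕ} {g : Pm p} (hg : IsTri p g) :
    IsKer p j (T (j + 1) g) ↔ IsKer p j g := by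
  have h1 := ((H.tr (j + 1)).tr1 g hg).1
  constructor
  · intro h x i hi
    have h2 := h x i hi
    rwa [h1 x i, if_pos (by omega)] at h2
  · intro h x i hi
    rw [h1 x i, if_pos (by omega)]
    exact h x i hi

lemma T_lab (H : Ctx p s Q Qk T c j0 a) {j : ℕ} {g : Pm p} (hg : IsTri p g) (x : ℕ → ZMod p) :
    T (j + 1) g x j = g x j := by
  rw [((H.tr (j + 1)).tr1 g hg).1 x j, if_pos (by omega)]

lemma a_eq (H : Ctx p s Q Qk T c j0 a) {j : ℕ} (hj : j0 ≤ j) : a j = c (j + 1) - c j := by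
  have hmono : c j ≤ c (j + 1) := H.cls.mono (Nat.le_succ j)
  have h1 : U p (a j) = U p (c (j + 1) - c j - 0) := by
    ext f
    have hk0 : ∀ h, h ∈ (Qk (j + 1)).lowerCentralSeries (c j + 0) ↔
        h ∈ Qk (j + 1) ∧ IsKer p j h := H.cls.ker j (j + 1) hj (Nat.le_succ j)
    rw [H.lab j f, W_eq H hj (by omega : c j + 0 ≤ c (j + 1)) f]
    constructor
    · rintro ⟨g, hg, hk, e⟩
      refine ⟨T (j + 1) g, ?_, fun x => ?_⟩
      · rw [hk0]
        exact ⟨(mem_Qk H _ _).2 ⟨g, hg, rfl⟩, (T_ker H (H.tree.tri g hg)).2 hk⟩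
      · rw [T_lab H (H.tree.tri g hg)]
        exact e x
    · rintro ⟨h, hh, e⟩
      rw [hk0] at hh
      obtain ⟨h1, h2⟩ := hh
      obtain ⟨g, hg, rfl⟩ := (mem_Qk H _ _).1 h1
      refine ⟨g, hg, (T_ker H (H.tree.tri g hg)).1 h2, fun x => ?_⟩
      rw [← T_lab H (H.tree.tri g hg)]
      exact e x
  have h2 := U_inj H.D1 p h1
  omega

lemma Gm_blk (H : Ctx p s Q Qk T c j0 a) (j : ℕ) (hj : j0 ≤ j) (r : ℕ) (hr : r ≤ a j)
    (g : Pm p) : g ∈ Gm H (c j + 1 + r) ↔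
      g ∈ Q ∧ IsKer p j g ∧ (fun x => g x j - x j) ∈ U p (a j - r) := by
  have hmono : c j ≤ c (j + 1) := H.cls.mono (Nat.le_succ j)
  have ha := a_eq H hj
  rw [mem_Gm' H (by omega : c j + 1 + r = c j + r + 1) (by omega : j0 ≤ j + 1)
    (by omega : c j + r ≤ c (j + 1))]
  have hW := fun f => W_eq H hj (by omega : c j + r ≤ c (j + 1)) f
  rw [← ha] at hW
  constructor
  · rintro ⟨hg, h⟩
    have ht := H.tree.tri g hg
    refine ⟨hg, (T_ker H ht).1 (M_prop H hj r _ h).2.1, ?_⟩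
    rw [hW]
    refine ⟨_, h, fun x => ?_⟩
    rw [T_lab H ht]
    ring
  · rintro ⟨hg, hk, h⟩
    have ht := H.tree.tri g hg
    refine ⟨hg, ?_⟩
    rw [hW] at h
    obtain ⟨h', hh', e⟩ := h
    have hM := M_prop H hj r _ hh'
    have h1 : h' = T (j + 1) g := by
      apply (H.tr (j + 1)).tr3 g h' ht
      intro x i
      rcases lt_trichotomy i j with hi | hi | hi
      · rw [if_pos (by omega), hM.2.1 x i hi, hk x i hi]
      · subst hi
        rw [if_pos (by omega), e]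
        ring
      · rw [if_neg (by omega), hM.2.2 x i hi]
    rw [← h1]
    exact hh'

lemma Gm_next (H : Ctx p s Q Qk T c j0 a) (m : ℕ) (hm : c j0 + 1 ≤ m) :
    ∀ g ∈ Gm H m, g ∉ Gm H (m + 1) → ∃ h ∈ Q, cm g h ∉ Gm H (m + 2) := by
  intro g hg hg'
  by_contra hcon
  push Not at hcon
  obtain ⟨j', hj, hi⟩ := exists_j' H (m + 1)
  have hp : p.Prime := Fact.out
  rw [mem_Gm' H (by omega : m = m - 1 + 1) hj (by omega : m - 1 ≤ c j')] at hg
  obtain ⟨hgQ, hgm⟩ := hg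
  rw [mem_Gm' H (rfl : m + 1 = m + 1) hj (by omega : m ≤ c j')] at hg'
  have hg'' : T j' g ∉ (Qk j').lowerCentralSeries m := fun h => hg' ⟨hgQ, h⟩
  have hcm : ∀ h ∈ Q, ⁅(T j' g)⁻¹, (T j' h)⁻¹⁆ ∈ (Qk j').lowerCentralSeries (m + 1) := by
    intro h hh
    have h1 := hcon h hh
    rw [mem_Gm' H (rfl : m + 2 = (m + 1) + 1) hj (by omega : m + 1 ≤ c j')] at h1
    rw [← T_cm H j' hgQ hh]
    exact h1.2
  have hcm' : ∀ x ∈ Qk j', ⁅(T j' g)⁻¹, x⁆ ∈ (Qk j').lowerCentralSeries (m + 1) := by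
    intro x hx
    obtain ⟨h, hh, hx'⟩ := (mem_Qk H j' _).1 (inv_mem hx)
    have h1 := hcm h hh
    rwa [hx', inv_inv] at h1
  set S := Qk j' with hS
  set Z := cen S (S.lowerCentralSeries (m + 1)) S (conj_lcs S (m + 1)) with hZ
  have hgS : T j' g ∈ S := (mem_Qk H j' _).2 ⟨g, hgQ, rfl⟩
  have hgZ : T j' g ∈ Z := by
    have h1 : (T j' g)⁻¹ ∈ Z := by
      refine ⟨inv_mem hgS, fun x hx => ?_⟩
      rw [← commutatorElement_inv]
      exact inv_mem (hcm' x hx)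
    have h2 := inv_mem h1
    rwa [inv_inv] at h2
  have hmZ : S.lowerCentralSeries m ≤ Z := by
    intro w hw
    refine ⟨S.lowerCentralSeries_le_self m hw, fun x hx => ?_⟩
    rw [← commutatorElement_inv]
    exact inv_mem (Subgroup.commutator_mem_commutator hw hx)
  have hanti : S.lowerCentralSeries m ≤ S.lowerCentralSeries (m - 1) :=
    S.lowerCentralSeries_antitone (by omega)
  have hc1 := H.cls.card j' (m - 1) hj (by omega) (by omega)
  have hc2 := H.cls.card j' m hj (by omega) (by omega)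
  have hc3 := H.cls.card j' (m + 1) hj (by omega) (by omega)
  have hidx : (S.lowerCentralSeries m).relIndex (S.lowerCentralSeries (m - 1)) = p := by
    apply relIndex_of_card (e := c j' - m) hp hanti
    · rw [hc1]
      congr 1
      omega
    · rw [hc2]
  have hstep := prime_step (B := S.lowerCentralSeries m) (C := Z ⊓ S.lowerCentralSeries (m - 1))
    (A := S.lowerCentralSeries (m - 1)) (le_inf hmZ hanti) inf_le_right hp hidx
    (fun h => hg'' (h ⟨hgZ, hgm⟩))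
  have hle : S.lowerCentralSeries m ≤ S.lowerCentralSeries (m + 1) := by
    have h1 : S.lowerCentralSeries m = ⁅S.lowerCentralSeries (m - 1), S⁆ := by
      have h2 : m = m - 1 + 1 := by omega
      conv_lhs => rw [h2]
      rfl
    rw [h1, Subgroup.commutator_le]
    intro w hw x hx
    rw [← commutatorElement_inv]
    exact inv_mem ((hstep hw).1.2 x hx)
  have hfin : Finite (S.lowerCentralSeries (m + 1)) := by
    apply Nat.finite_of_card_ne_zero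
    rw [hc3]
    exact (pow_pos hp.pos _).ne'
  have h1 := Nat.card_le_card_of_injective _ (Subgroup.inclusion_injective hle)
  rw [hc2, hc3] at h1
  have h2 := (Nat.pow_le_pow_iff_right hp.one_lt).1 h1
  omega

end ctx

theorem main : S_GAM := by
  intro D1 D2 D3 D4 D5 DC TR CLS LAB p _ s Q Qk hT
  obtain ⟨c, j0, hcls⟩ := CLS D1 D2 D3 D4 D5 DC TR p s Q Qk hT
  obtain ⟨a, hlab, hale⟩ := LAB D1 D2 D3 D4 D5 p Q hT.tri hT.tau_ne
  choose T hTr using TR p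
  have H : Ctx p s Q Qk T c j0 a :=
    { D1 := D1, D2 := D2, D3 := D3, D4 := D4, D5 := D5, DC := DC, tree := hT
      tr := fun k => ⟨(hTr k).1, (hTr k).2.1, (hTr k).2.2.1, (hTr k).2.2.2.1, (hTr k).2.2.2.2.1⟩
      cls := hcls, lab := hlab, ale := hale }
  refine ⟨Gm H, j0, fun j => c j + 1, a, ?_⟩
  have hle : ∀ m, Gm H m ≤ Q := fun m g hg => ((mem_Gm H m g).1 hg).1
  exact
    { one := by
        apply le_antisymm (hle 1)
        intro g hg
        rw [mem_Gm]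
        refine ⟨hg, fun k => ?_⟩
        exact (mem_Qk H k _).2 ⟨g, hg, rfl⟩
      le := hle
      anti := by
        intro m m' hmm g hg
        rw [mem_Gm] at hg ⊢
        exact ⟨hg.1, fun k => (Qk k).lowerCentralSeries_antitone (Nat.sub_le_sub_right hmm 1)
          (hg.2 k)⟩
      comm := Gm_comm H
      dep := Gm_dep H
      index := Gm_index H
      lab := hlab
      ale := hale
      npos := by omega
      nstep := by
        intro j hj
        have h1 := a_eq H hj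
        have h2 : c j ≤ c (j + 1) := hcls.mono (Nat.le_succ j)
        omega
      blk := Gm_blk H
      next := Gm_next H }

end Pool.Agent.W465.SG
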