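import Pool.Agent.W37.SG.Stm

/-! SG-GAM (MP_9a3597_al), part 1: group theory, the modules `U p n`, depth. -/

set_option autoImplicit false

namespace Pool.Agent.W465.SG
open Pool.Agent.W37.SG
open scoped commutatorElement

section grp
variable {G : Type*} [Group G]

/-- elements of `S` which commute with `A` modulo `N` -/
def cen (A N S : Subgroup G) (hN : ∀ s ∈ S, ∀ x ∈ N, s * x * s⁻¹ ∈ N) : Subgroup G where
  carrier := {w | w ∈ S ∧ ∀ x ∈ A, ⁅x, w⁆ ∈ N}
  mul_mem' := by
    rintro a b ⟨ha, ha'⟩ ⟨hb, hb'⟩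
    refine ⟨S.mul_mem ha hb, fun x hx => ?_⟩
    have : ⁅x, a * b⁆ = ⁅x, a⁆ * (a * ⁅x, b⁆ * a⁻¹) := by
      simp only [commutatorElement_def]; group
    rw [this]
    exact N.mul_mem (ha' x hx) (hN a ha _ (hb' x hx))
  one_mem' := ⟨S.one_mem, fun x _ => by
    have : ⁅x, (1 : G)⁆ = 1 := by simp [commutatorElement_def]
    rw [this]; exact N.one_mem⟩
  inv_mem' := by
    rintro a ⟨ha, ha'⟩
    refine ⟨S.inv_mem ha, fun x hx => ?_⟩
    have : ⁅x, a⁻¹⁆ = a⁻¹ * ⁅x, a⁆⁻¹ * a⁻¹⁻¹ := by
      simp only [commutatorElement_def]; group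
    rw [this]
    exact hN _ (S.inv_mem ha) _ (N.inv_mem (ha' x hx))

lemma conj_lcs (S : Subgroup G) (n : ℕ) : ∀ s ∈ S, ∀ x ∈ S.lowerCentralSeries n,
    s * x * s⁻¹ ∈ S.lowerCentralSeries n := by
  intro s hs x hx
  exact (Subgroup.mem_normalizer_iff.1 (S.self_le_normalizer_lowerCentralSeries n hs) x).1 hx

lemma comm_lcs (S : Subgroup G) : ∀ j i : ℕ,
    ⁅S.lowerCentralSeries i, S.lowerCentralSeries j⁆ ≤ S.lowerCentralSeries (i + j + 1) := by
  intro j
  induction j with
  | zero => intro i; exact le_rfl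
  | succ j ih =>
    intro i
    have hN := conj_lcs S (i + (j + 1) + 1)
    have hle : S.lowerCentralSeries (j + 1) ≤
        cen (S.lowerCentralSeries i) (S.lowerCentralSeries (i + (j + 1) + 1)) S hN := by
      rw [Subgroup.lowerCentralSeries_succ, Subgroup.commutator_le]
      intro b hb s hs
      refine ⟨?_, fun a ha => ?_⟩
      · exact S.lowerCentralSeries_le_self (j + 1) (Subgroup.commutator_mem_commutator hb hs)
      · have haS := S.lowerCentralSeries_le_self i ha
        have hbS := S.lowerCentralSeries_le_self j hb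
        have h1 : ⁅s, ⁅a⁻¹, b⁻¹⁆⁆ ∈ S.lowerCentralSeries (i + (j + 1) + 1) := by
          have h2 := ih i (Subgroup.commutator_mem_commutator (inv_mem ha) (inv_mem hb))
          have h3 := Subgroup.commutator_mem_commutator hs h2
          rw [Subgroup.commutator_comm] at h3
          exact h3
        have h2 : ⁅b⁻¹, ⁅s⁻¹, a⁆⁆ ∈ S.lowerCentralSeries (i + (j + 1) + 1) := by
          have h3 : ⁅s⁻¹, a⁆ ∈ S.lowerCentralSeries (i + 1) := by
            have h4 := Subgroup.commutator_mem_commutator (inv_mem hs) ha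
            rw [Subgroup.commutator_comm] at h4
            exact h4
          have h5 := Subgroup.commutator_mem_commutator (inv_mem hb) h3
          rw [Subgroup.commutator_comm] at h5
          have h6 := ih (i + 1) h5
          have h7 : i + 1 + j + 1 = i + (j + 1) + 1 := by omega
          rwa [h7] at h6
        have h3 : ⁅a, ⁅b, s⁆⁆ = (b * (a * ⁅s, ⁅a⁻¹, b⁻¹⁆⁆⁻¹ * a⁻¹) * b⁻¹) *
            (b * (s * ⁅b⁻¹, ⁅s⁻¹, a⁆⁆⁻¹ * s⁻¹) * b⁻¹) := by
          simp only [commutatorElement_def]; group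
        rw [h3]
        exact mul_mem (hN b hbS _ (hN a haS _ (inv_mem h1))) (hN b hbS _ (hN s hs _ (inv_mem h2)))
    rw [Subgroup.commutator_le]
    intro a ha w hw
    exact (hle hw).2 a ha

lemma prime_step {A B C : Subgroup G} {p : ℕ} (hBC : B ≤ C) (hCA : C ≤ A) (hp : p.Prime)
    (hidx : B.relIndex A = p) (hne : ¬ C ≤ B) : A ≤ C := by
  have h1 := Subgroup.relIndex_mul_relIndex B C A hBC hCA
  rw [hidx] at h1
  rcases (Nat.dvd_prime hp).1 (Dvd.intro _ h1) with h2 | h2
  · exact absurd (Subgroup.relIndex_eq_one.1 h2) hne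
  · rw [h2] at h1
    have h3 : C.relIndex A = 1 := by
      have := hp.pos
      exact Nat.eq_of_mul_eq_mul_left this (by rw [h1, mul_one])
    exact Subgroup.relIndex_eq_one.1 h3

lemma relIndex_of_card {A B : Subgroup G} {p e : ℕ} (hp : p.Prime) (hBA : B ≤ A)
    (hA : Nat.card A = p ^ (e + 1)) (hB : Nat.card B = p ^ e) : B.relIndex A = p := by
  have h1 := Subgroup.relIndex_mul_relIndex ⊥ B A bot_le hBA
  rw [Subgroup.relIndex_bot_left, Subgroup.relIndex_bot_left, hA, hB, pow_succ] at h1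
  exact Nat.eq_of_mul_eq_mul_left (pow_pos hp.pos e) h1

end grp

section modules

variable {p : ℕ}

lemma U_mono {m n : ℕ} (h : m ≤ n) : U p m ≤ U p n := by
  apply Submodule.span_mono
  rintro f ⟨i, hi, hf⟩
  exact ⟨i, by omega, hf⟩

lemma mon_mem {i n : ℕ} (h : i < n) : mon p i ∈ U p n := Submodule.subset_span ⟨i, h, rfl⟩

lemma U_succ {n : ℕ} {f : Fn p} (hf : f ∈ U p (n + 1)) :
    ∃ a : ZMod p, f - a • mon p n ∈ U p n := by
  unfold U at hf
  induction hf using Submodule.span_induction with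
  | mem f hf =>
    obtain ⟨i, hi, rfl⟩ := hf
    rcases Nat.lt_succ_iff_lt_or_eq.1 hi with h | h
    · exact ⟨0, by rw [zero_smul, sub_zero]; exact mon_mem h⟩
    · refine ⟨1, ?_⟩
      rw [h, one_smul, sub_self]
      exact zero_mem _
  | zero => exact ⟨0, by simp⟩
  | add f g _ _ hf hg =>
    obtain ⟨a, ha⟩ := hf
    obtain ⟨b, hb⟩ := hg
    refine ⟨a + b, ?_⟩
    have : f + g - (a + b) • mon p n = (f - a • mon p n) + (g - b • mon p n) := by
      rw [add_smul]; abel
    rw [this]
    exact add_mem ha hb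
  | smul c f _ hf =>
    obtain ⟨a, ha⟩ := hf
    refine ⟨c * a, ?_⟩
    have : c • f - (c * a) • mon p n = c • (f - a • mon p n) := by
      rw [smul_sub, mul_smul]
    rw [this]
    exact Submodule.smul_mem _ c ha

lemma exists_lead {d : ℕ} {g : Pm p} (h : Dep p d g) : ∃ a, Lead p d g a := by
  have hex : ∀ i, ∃ a : ZMod p, d ≤ i →
      (fun x => mon p i (g x) - mon p i x - a * mon p (i - d) x) ∈ U p (i - d) := by
    intro i
    by_cases hi : d ≤ i
    · have h1 := h (i + 1) (mon p i) (mon_mem (Nat.lt_succ_self i))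
      have h2 : i + 1 - d = (i - d) + 1 := by omega
      rw [h2] at h1
      obtain ⟨a, ha⟩ := U_succ h1
      exact ⟨a, fun _ => ha⟩
    · exact ⟨0, fun h' => absurd h' hi⟩
  choose a ha using hex
  exact ⟨a, fun i hi => ha i hi⟩

/-- the subgroup of the elements of depth at least `d` -/
def DepG (hDC : S_DC) (p : ℕ) [Fact p.Prime] (d : ℕ) (hd : 1 ≤ d) : Subgroup (Pm p) where
  carrier := {g | Dep p d g}
  mul_mem' := by
    intro g h hg hh
    obtain ⟨a, ha⟩ := exists_lead hg
    obtain ⟨b, hb⟩ := exists_lead hh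
    exact ((hDC p d d g h a b hd hd hg hh ha hb).2.1 rfl).1
  one_mem' := by
    intro n f _
    have : (fun x => f ((1 : Pm p) x) - f x) = 0 := by
      funext x
      simp
    rw [this]
    exact zero_mem _
  inv_mem' := by
    intro g hg
    obtain ⟨a, ha⟩ := exists_lead hg
    exact ((hDC p d d g g a a hd hd hg hg ha ha).2.2.1).1

lemma lcs_dep (hDC : S_DC) (p : ℕ) [Fact p.Prime] (S : Subgroup (Pm p)) (hS : ∀ g ∈ S, Dep p 1 g)
    (i : ℕ) : ∀ g ∈ S.lowerCentralSeries i, Dep p (i + 1) g := by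
  have key : S.lowerCentralSeries i ≤ DepG hDC p (i + 1) (by omega) := by
    induction i with
    | zero => exact fun g hg => hS g hg
    | succ i ih =>
      rw [Subgroup.lowerCentralSeries_succ, Subgroup.commutator_le]
      intro g hg h hh
      have h1 : Dep p (i + 1) g⁻¹ := ih (inv_mem hg)
      have h2 : Dep p 1 h⁻¹ := hS _ (inv_mem hh)
      obtain ⟨a, ha⟩ := exists_lead h1
      obtain ⟨b, hb⟩ := exists_lead h2
      have h3 := ((hDC p (i + 1) 1 g⁻¹ h⁻¹ a b (by omega) le_rfl h1 h2 ha hb).1).1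
      have h4 : cm g⁻¹ h⁻¹ = ⁅g, h⁆ := by
        simp only [cm, commutatorElement_def, inv_inv]
      rw [h4] at h3
      exact h3
  exact key

lemma card_U (h1 : S_D1) (p : ℕ) [Fact p.Prime] (n : ℕ) : Nat.card (U p n) = p ^ n := by
  have hrange : ∀ n : ℕ, Set.range (fun i : Fin n => mon p i) = {f | ∃ i < n, f = mon p i} := by
    intro n
    ext f
    constructor
    · rintro ⟨i, rfl⟩
      exact ⟨i, i.2, rfl⟩
    · rintro ⟨i, hi, rfl⟩
      exact ⟨⟨i, hi⟩, rfl⟩
  have hli : ∀ n : ℕ, LinearIndependent (ZMod p) (fun i : Fin n => mon p i) := by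
    intro n
    induction n with
    | zero => exact linearIndependent_empty_type
    | succ n ih =>
      rw [linearIndependent_finSucc']
      refine ⟨ih, ?_⟩
      have h2 : Set.range (Fin.init fun i : Fin (n + 1) => mon p i) = {f | ∃ i < n, f = mon p i} :=
        hrange n
      rw [h2]
      exact h1 p n
  have hU : U p n = Submodule.span (ZMod p) (Set.range (fun i : Fin n => mon p i)) := by
    rw [hrange]; rfl
  rw [hU, Nat.card_congr ((Module.Basis.span (hli n)).equivFun.toEquiv), Nat.card_fun]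
  simp

lemma U_inj (h1 : S_D1) (p : ℕ) [hp : Fact p.Prime] {m n : ℕ} (h : U p m = U p n) : m = n := by
  have h2 := card_U h1 p m
  rw [h, card_U h1 p n] at h2
  exact Nat.pow_right_injective hp.out.two_le h2.symm

end modules

end Pool.Agent.W465.SG
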